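import Pool.Agent.K1H9.RP.Basic

/-! Project RP: changes of variables (S_TF1, S_QS). -/

set_option autoImplicit false

open MeasureTheory ProbabilityTheory Matrix
open scoped BigOperators ENNReal

namespace Pool.Agent.K1H60.RP

open Pool.Agent.K1H9.RP

/-- the measurable equivalence given by an invertible matrix -/
noncomputable def meq {n : ℕ} (M : Matrix (Fin n) (Fin n) ℝ) (hM : M.det ≠ 0) :
    (Fin n → ℝ) ≃ᵐ (Fin n → ℝ) :=
  (Matrix.toLin'OfInv (M := M⁻¹) (M' := M)
    (Matrix.nonsing_inv_mul M (isUnit_iff_ne_zero.2 hM))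
    (Matrix.mul_nonsing_inv M
      (isUnit_iff_ne_zero.2 hM))).toContinuousLinearEquiv.toHomeomorph.toMeasurableEquiv

theorem meq_apply {n : ℕ} (M : Matrix (Fin n) (Fin n) ℝ) (hM : M.det ≠ 0) (v : Fin n → ℝ) :
    meq M hM v = M *ᵥ v := by
  simp only [meq]
  rw [Homeomorph.toMeasurableEquiv_coe, ContinuousLinearEquiv.coe_toHomeomorph,
    LinearEquiv.coe_toContinuousLinearEquiv']
  simp [Matrix.toLin'OfInv]

theorem map_meq {n : ℕ} (M : Matrix (Fin n) (Fin n) ℝ) (hM : M.det ≠ 0) :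
    Measure.map (meq M hM) volume = ENNReal.ofReal |M.det⁻¹| • volume := by
  have h : (⇑(meq M hM) : (Fin n → ℝ) → Fin n → ℝ) = ⇑(Matrix.toLin' M) := by
    funext v
    rw [meq_apply, Matrix.toLin'_apply]
  rw [h]
  exact Real.map_matrix_volume_pi_eq_smul_volume_pi hM

theorem lintegral_mulVec {n : ℕ} (M : Matrix (Fin n) (Fin n) ℝ) (hM : M.det ≠ 0)
    (F : (Fin n → ℝ) → ℝ≥0∞) :
    ∫⁻ u, F u = ENNReal.ofReal |M.det| * ∫⁻ r, F (M *ᵥ r) := by
  have h1 := lintegral_map_equiv (μ := volume) F (meq M hM)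
  rw [map_meq, lintegral_smul_measure] at h1
  simp only [meq_apply] at h1
  rw [← h1, smul_eq_mul, ← mul_assoc, ← ENNReal.ofReal_mul (abs_nonneg _), ← abs_mul,
    mul_inv_cancel₀ hM, abs_one, ENNReal.ofReal_one, one_mul]

theorem integral_mulVec {n : ℕ} (M : Matrix (Fin n) (Fin n) ℝ) (hM : M.det ≠ 0)
    (F : (Fin n → ℝ) → ℝ) :
    ∫ u, F u = |M.det| * ∫ r, F (M *ᵥ r) := by
  have h1 := integral_map_equiv (μ := volume) (meq M hM) F
  rw [map_meq, integral_smul_measure] at h1
  simp only [meq_apply] at h1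
  rw [← h1, ENNReal.toReal_ofReal (abs_nonneg _), smul_eq_mul, ← mul_assoc, ← abs_mul,
    mul_inv_cancel₀ hM, abs_one, one_mul]

theorem t_TF1 : S_TF1 := by
  intro d x hx f
  rw [integral_gv, integral_mulVec (BM x) hx]
  congr 1
  refine integral_congr_ae (Filter.Eventually.of_forall fun p => ?_)
  have h1 : gco x (BM x *ᵥ p) = p := by
    rw [gco, Matrix.mulVec_mulVec, Matrix.nonsing_inv_mul _ (isUnit_iff_ne_zero.2 hx),
      Matrix.one_mulVec]
  simp only [h1, gden, Fintype.card_fin, smul_eq_mul]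
  ring

/-- the integrand after the linear substitution -/
noncomputable def psiU (d j : ℕ) (Y : Fin (d + 1) → Fin d → ℝ) (ρ : ℝ) (u : Fin (d + 1) → ℝ) :
    ℝ :=
  Set.indicator {u : Fin (d + 1) → ℝ | 0 < u 0 ∧ pat j (bary Y (fun c => u c.succ / u 0))}
    (fun u => Real.exp (-u 0) * ((u 0 * ρ)⁻¹ ^ d *
      gden (Fin d) (fun c => u c.succ / (u 0 * ρ)))) u

theorem measurable_psiU (d j : ℕ) (Y : Fin (d + 1) → Fin d → ℝ) (ρ : ℝ) :
    Measurable (psiU d j Y ρ) := by
  unfold psiU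
  refine Measurable.indicator ?_ ?_
  · have h1 : Measurable fun u : Fin (d + 1) → ℝ => gden (Fin d) (fun c => u c.succ / (u 0 * ρ)) :=
      (gden_measurable _).comp (measurable_pi_lambda _ fun c =>
        (measurable_pi_apply _).div ((measurable_pi_apply _).mul_const _))
    exact ((measurable_pi_apply (0 : Fin (d + 1))).neg.exp).mul
      (((((measurable_pi_apply (0 : Fin (d + 1))).mul_const ρ).inv).pow_const d).mul h1)
  · have h1 : Measurable fun u : Fin (d + 1) → ℝ =>
        ((Y, fun c => u c.succ / u 0) : (Fin (d + 1) → Fin d → ℝ) × (Fin d → ℝ)) :=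
      measurable_const.prodMk (measurable_pi_lambda _ fun c =>
        (measurable_pi_apply _).div (measurable_pi_apply _))
    exact (measurableSet_lt measurable_const (measurable_pi_apply _)).inter
      (h1 (measurableSet_pat_bary j))

theorem pat_smul {n j : ℕ} (s : ℝ) (hs : 0 < s) (m : Fin n → ℝ) : pat j (s • m) ↔ pat j m := by
  unfold pat
  simp only [Pi.smul_apply, smul_eq_mul]
  have h1 : ∀ i, s * m i < 0 ↔ m i < 0 := fun i => by
    constructor
    · intro h
      by_contra hc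
      push Not at hc
      nlinarith [mul_nonneg hs.le hc]
    · intro h
      exact mul_neg_of_pos_of_neg hs h
  have h2 : ∀ i, 0 < s * m i ↔ 0 < m i := fun i => mul_pos_iff_of_pos_left hs
  simp only [h1, h2]

theorem phi_eq (d j : ℕ) (Y : Fin (d + 1) → Fin d → ℝ) (hY : (BM Y).det ≠ 0) (ρ : ℝ)
    (r : Fin (d + 1) → ℝ) :
    Set.indicator {r : Fin (d + 1) → ℝ | pat j r ∧ 0 < ∑ i, r i}
      (fun r => Real.exp (-∑ i, r i) * ((Real.sqrt (2 * Real.pi))⁻¹ ^ d *
        (((∑ i, r i) * ρ)⁻¹ ^ d *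
          Real.exp (-(∑ l : Fin d, (∑ i, r i * Y i l) ^ 2) /
            (2 * ((∑ i, r i) * ρ) ^ 2))))) r = psiU d j Y ρ ((BM Y)ᵀ *ᵥ r) := by
  have h0 : ((BM Y)ᵀ *ᵥ r) 0 = ∑ i, r i := by
    simp [Matrix.mulVec, dotProduct, BM_apply, hom_zero]
  have h1 : ∀ c : Fin d, ((BM Y)ᵀ *ᵥ r) c.succ = ∑ i, r i * Y i c := by
    intro c
    simp only [Matrix.mulVec, dotProduct, Matrix.transpose_apply, BM_apply, hom_succ]
    exact Finset.sum_congr rfl fun i _ => mul_comm _ _
  by_cases hs : 0 < ∑ i, r i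
  · have h2 : bary Y (fun c => ((BM Y)ᵀ *ᵥ r) c.succ / ((BM Y)ᵀ *ᵥ r) 0) =
        (∑ i, r i)⁻¹ • r := by
      have h3 : hom (fun c => ((BM Y)ᵀ *ᵥ r) c.succ / ((BM Y)ᵀ *ᵥ r) 0) =
          (∑ i, r i)⁻¹ • (r ᵥ* BM Y) := by
        rw [← Matrix.mulVec_transpose]
        funext c
        refine Fin.cases ?_ (fun c => ?_) c
        · rw [hom_zero, Pi.smul_apply, h0, smul_eq_mul, inv_mul_cancel₀ hs.ne']
        · rw [hom_succ, Pi.smul_apply, h0, smul_eq_mul, div_eq_inv_mul]
      rw [bary, h3, Matrix.smul_vecMul, Matrix.vecMul_vecMul,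
        Matrix.mul_nonsing_inv _ (isUnit_iff_ne_zero.2 hY), Matrix.vecMul_one]
    by_cases hp : pat j r
    · rw [Set.indicator_of_mem (by exact ⟨hp, hs⟩), psiU, Set.indicator_of_mem]
      · simp only [h0, h1, gden, Fintype.card_fin]
        have h3 : -(∑ l : Fin d, (∑ i, r i * Y i l) ^ 2) / (2 * ((∑ i, r i) * ρ) ^ 2) =
            -(∑ l : Fin d, ((∑ i, r i * Y i l) / ((∑ i, r i) * ρ)) ^ 2) / 2 := by
          simp only [div_pow]
          rw [← Finset.sum_div]
          ring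
        rw [h3]
        ring
      · refine ⟨by rw [h0]; exact hs, ?_⟩
        rw [h2, pat_smul _ (inv_pos.2 hs)]
        exact hp
    · rw [Set.indicator_of_notMem (fun h => hp h.1), psiU, Set.indicator_of_notMem]
      rintro ⟨-, h⟩
      rw [h2, pat_smul _ (inv_pos.2 hs)] at h
      exact hp h
  · rw [Set.indicator_of_notMem (fun h => hs h.2), psiU, Set.indicator_of_notMem]
    rintro ⟨h, -⟩
    rw [h0] at h
    exact hs h

theorem lintegral_psiU (d j : ℕ) (Y : Fin (d + 1) → Fin d → ℝ) (ρ : ℝ) (hρ : 0 < ρ) :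
    ∫⁻ u, ENNReal.ofReal (psiU d j Y ρ u) = (gv (Fin d)) {g | pat j (bary Y (ρ • g))} := by
  have hB : MeasurableSet {g : Fin d → ℝ | pat j (bary Y (ρ • g))} := by
    have h1 : Measurable fun g : Fin d → ℝ =>
        ((Y, ρ • g) : (Fin (d + 1) → Fin d → ℝ) × (Fin d → ℝ)) :=
      measurable_const.prodMk (measurable_id.const_smul ρ)
    exact h1 (measurableSet_pat_bary j)
  have h1 : ∫⁻ u, ENNReal.ofReal (psiU d j Y ρ u) =
      ∫⁻ z : ℝ × (Fin d → ℝ), ENNReal.ofReal (psiU d j Y ρ (Fin.cons z.1 z.2))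
        ∂(volume : Measure ℝ).prod (volume : Measure (Fin d → ℝ)) := by
    have h2 := (volume_preserving_piFinSuccAbove (fun _ : Fin (d + 1) => ℝ) 0).symm
    rw [← h2.lintegral_comp_emb (MeasurableEquiv.measurableEmbedding _)]
    simp_rw [MeasurableEquiv.piFinSuccAbove_symm_apply, Fin.insertNthEquiv, Fin.insertNth_zero,
      Equiv.coe_fn_mk]
    rfl
  have hms : Measurable fun z : ℝ × (Fin d → ℝ) =>
      ENNReal.ofReal (psiU d j Y ρ (Fin.cons z.1 z.2)) := by
    refine ((measurable_psiU d j Y ρ).comp ?_).ennreal_ofReal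
    refine measurable_pi_lambda _ fun i => ?_
    refine Fin.cases ?_ (fun c => ?_) i
    · exact measurable_fst
    · exact (measurable_pi_apply c).comp measurable_snd
  rw [h1, lintegral_prod _ hms.aemeasurable]
  have h3 : ∀ s : ℝ, ∫⁻ w : Fin d → ℝ, ENNReal.ofReal (psiU d j Y ρ (Fin.cons s w)) =
      (Set.Ioi (0 : ℝ)).indicator (fun s => ENNReal.ofReal (Real.exp (-s))) s *
        (gv (Fin d)) {g | pat j (bary Y (ρ • g))} := by
    intro s
    by_cases hs : 0 < s
    · rw [Set.indicator_of_mem (by exact hs)]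
      have hsρ : 0 < s * ρ := mul_pos hs hρ
      have hdet : ((s * ρ) • (1 : Matrix (Fin d) (Fin d) ℝ)).det = (s * ρ) ^ d := by
        rw [Matrix.det_smul, Matrix.det_one, mul_one, Fintype.card_fin]
      rw [lintegral_mulVec ((s * ρ) • (1 : Matrix (Fin d) (Fin d) ℝ)) (by
        rw [hdet]; positivity), hdet, abs_of_pos (pow_pos hsρ d)]
      have h4 : ∀ g : Fin d → ℝ, ENNReal.ofReal (psiU d j Y ρ
          (Fin.cons s (((s * ρ) • (1 : Matrix (Fin d) (Fin d) ℝ)) *ᵥ g))) =
          ENNReal.ofReal (Real.exp (-s) * (s * ρ)⁻¹ ^ d) *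
            (ENNReal.ofReal (gden (Fin d) g) *
              {g | pat j (bary Y (ρ • g))}.indicator (fun _ => (1 : ℝ≥0∞)) g) := by
        intro g
        rw [Matrix.smul_mulVec, Matrix.one_mulVec]
        have h5 : (fun c : Fin d => (Fin.cons s ((s * ρ) • g) : Fin (d + 1) → ℝ) c.succ /
            (Fin.cons s ((s * ρ) • g) : Fin (d + 1) → ℝ) 0) = ρ • g := by
          funext c
          simp only [Fin.cons_succ, Fin.cons_zero, Pi.smul_apply, smul_eq_mul]
          field_simp
        have h6 : (fun c : Fin d => (Fin.cons s ((s * ρ) • g) : Fin (d + 1) → ℝ) c.succ /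
            ((Fin.cons s ((s * ρ) • g) : Fin (d + 1) → ℝ) 0 * ρ)) = g := by
          funext c
          simp only [Fin.cons_succ, Fin.cons_zero, Pi.smul_apply, smul_eq_mul]
          field_simp
        by_cases hg : pat j (bary Y (ρ • g))
        · rw [psiU, Set.indicator_of_mem, Set.indicator_of_mem (by exact hg), mul_one, h6,
            Fin.cons_zero, ← mul_assoc, ENNReal.ofReal_mul (by positivity)]
          refine ⟨?_, ?_⟩
          · rw [Fin.cons_zero]; exact hs
          · rw [h5]; exact hg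
        · rw [psiU, Set.indicator_of_notMem, Set.indicator_of_notMem (by exact hg), mul_zero,
            mul_zero, ENNReal.ofReal_zero]
          rintro ⟨-, h⟩
          rw [h5] at h
          exact hg h
      have hmB : Measurable fun g : Fin d → ℝ =>
          {g | pat j (bary Y (ρ • g))}.indicator (fun _ => (1 : ℝ≥0∞)) g :=
        measurable_const.indicator hB
      have hmG : Measurable fun g : Fin d → ℝ => ENNReal.ofReal (gden (Fin d) g) *
          {g | pat j (bary Y (ρ • g))}.indicator (fun _ => (1 : ℝ≥0∞)) g :=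
        (gden_measurable _).ennreal_ofReal.mul hmB
      rw [lintegral_congr h4, lintegral_const_mul _ hmG, ← mul_assoc,
        ← ENNReal.ofReal_mul (by positivity), ← lintegral_gv _ hmB,
        lintegral_indicator_const hB, one_mul]
      congr 2
      rw [mul_comm, mul_assoc, ← mul_pow, inv_mul_cancel₀ hsρ.ne', one_pow, mul_one]
    · rw [Set.indicator_of_notMem (by exact hs), zero_mul]
      have h4 : ∀ w : Fin d → ℝ, ENNReal.ofReal (psiU d j Y ρ (Fin.cons s w)) = 0 := by
        intro w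
        rw [psiU, Set.indicator_of_notMem, ENNReal.ofReal_zero]
        rintro ⟨h, -⟩
        rw [Fin.cons_zero] at h
        exact hs h
      rw [lintegral_congr h4, lintegral_zero]
  rw [lintegral_congr h3, lintegral_mul_const _ (by
    exact (Real.measurable_exp.comp measurable_neg).ennreal_ofReal.indicator measurableSet_Ioi),
    lintegral_indicator measurableSet_Ioi,
    ← ofReal_integral_eq_lintegral_ofReal (integrableOn_exp_neg_Ioi 0)
      (Filter.Eventually.of_forall fun s => (Real.exp_pos _).le),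
    integral_exp_neg_Ioi_zero, ENNReal.ofReal_one, one_mul]

theorem psiU_nonneg (d j : ℕ) (Y : Fin (d + 1) → Fin d → ℝ) (ρ : ℝ) (hρ : 0 < ρ)
    (u : Fin (d + 1) → ℝ) : 0 ≤ psiU d j Y ρ u := by
  unfold psiU
  refine Set.indicator_nonneg (fun u hu => ?_) u
  have h1 := gden_pos (Fin d) (fun c => u c.succ / (u 0 * ρ))
  have h2 : 0 < u 0 := hu.1
  positivity

theorem t_QS : S_QS := by
  intro d j Y hY ρ hρ
  have hdet : ((BM Y)ᵀ).det ≠ 0 := by rwa [Matrix.det_transpose]
  have hm : Measurable fun r : Fin (d + 1) → ℝ => psiU d j Y ρ ((BM Y)ᵀ *ᵥ r) := by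
    refine (measurable_psiU d j Y ρ).comp ?_
    have h2 := (meq _ hdet).measurable
    have h3 : (⇑(meq _ hdet) : (Fin (d + 1) → ℝ) → Fin (d + 1) → ℝ) =
        fun r => (BM Y)ᵀ *ᵥ r := by
      funext v
      rw [meq_apply]
    rwa [h3] at h2
  have hn : ∀ r : Fin (d + 1) → ℝ, 0 ≤ psiU d j Y ρ ((BM Y)ᵀ *ᵥ r) := fun r =>
    psiU_nonneg d j Y ρ hρ _
  have h1 := lintegral_mulVec (BM Y)ᵀ hdet (fun u => ENNReal.ofReal (psiU d j Y ρ u))
  rw [lintegral_psiU d j Y ρ hρ, Matrix.det_transpose] at h1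
  have hI : Integrable fun r : Fin (d + 1) → ℝ => psiU d j Y ρ ((BM Y)ᵀ *ᵥ r) := by
    refine ⟨hm.aestronglyMeasurable, ?_⟩
    rw [hasFiniteIntegral_iff_ofReal (Filter.Eventually.of_forall hn)]
    by_contra hc
    rw [not_lt, top_le_iff] at hc
    rw [hc, ENNReal.mul_top (by
      rw [Ne, ENNReal.ofReal_eq_zero, not_le]
      exact abs_pos.2 hY)] at h1
    exact measure_ne_top _ _ h1
  have hfe : Set.indicator {r : Fin (d + 1) → ℝ | pat j r ∧ 0 < ∑ i, r i}
      (fun r => Real.exp (-∑ i, r i) * ((Real.sqrt (2 * Real.pi))⁻¹ ^ d *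
        (((∑ i, r i) * ρ)⁻¹ ^ d *
          Real.exp (-(∑ l : Fin d, (∑ i, r i * Y i l) ^ 2) /
            (2 * ((∑ i, r i) * ρ) ^ 2))))) =
      fun r : Fin (d + 1) → ℝ => psiU d j Y ρ ((BM Y)ᵀ *ᵥ r) := by
    funext r
    exact phi_eq d j Y hY ρ r
  rw [hfe]
  refine ⟨hI, ?_⟩
  rw [integral_eq_lintegral_of_nonneg_ae (Filter.Eventually.of_forall hn)
    hm.aestronglyMeasurable, Measure.real, h1, ENNReal.toReal_mul,
    ENNReal.toReal_ofReal (abs_nonneg _)]

end Pool.Agent.K1H60.RP
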